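import Pool.Agent.X247.DS.Grid

/-!
# The grid construction: correctness
-/

namespace Pool.Agent.NPC.X247.DS

open Pool.Agent.H633R2 Pool.Agent.X247.DS

/-- the blue vertex at the position `x` of the cell `(i, j)` -/
def pos (M : List (List Bool)) (i j x : ℕ) : Nm :=
  (bif allowed M i j (x / (M.length + 2)) (x % (M.length + 2)) then 0 else 1, i, j,
    x / (M.length + 2), x % (M.length + 2))

section

variable {M : List (List Bool)} {k : ℕ}

theorem pos_mem {i j x : ℕ} (hi : i < k) (hj : j < k)
    (hx : x < (M.length + 2) * (M.length + 2)) : pos M i j x ∈ vtn M k := by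
  rw [mem_vtn]
  refine Or.inr (Or.inr ⟨⟨?_, hi, hj, Nat.div_lt_of_lt_mul hx, Nat.mod_lt _ (by omega)⟩, ?_⟩)
  · unfold pos
    cases allowed M i j (x / (M.length + 2)) (x % (M.length + 2)) <;> simp
  · unfold pos okN
    cases h : allowed M i j (x / (M.length + 2)) (x % (M.length + 2)) <;> simp [h]

theorem pos_kind (i j x : ℕ) : (pos M i j x).1 ≤ 1 := by
  unfold pos
  cases allowed M i j (x / (M.length + 2)) (x % (M.length + 2)) <;> simp

theorem pos_idx (i j x : ℕ) : (pos M i j x).2.2.2.1 * (M.length + 2) + (pos M i j x).2.2.2.2 = x :=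
  Nat.div_add_mod' x (M.length + 2)

theorem pos_inj {i j x y : ℕ} (h : pos M i j x = pos M i j y) : x = y := by
  rw [← pos_idx (M := M) i j x, h, pos_idx]

theorem pos_of_not_allowed {i j x : ℕ}
    (h : allowed M i j (x / (M.length + 2)) (x % (M.length + 2)) = false) :
    pos M i j x = (1, i, j, x / (M.length + 2), x % (M.length + 2)) := by
  unfold pos
  rw [h]
  rfl

theorem pos_zero (i j : ℕ) : pos M i j 0 = (1, i, j, 0, 0) := by
  have : allowed M i j (0 / (M.length + 2)) (0 % (M.length + 2)) = false := by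
    rw [← Bool.not_eq_true, allowed_iff]
    simp
  rw [pos_of_not_allowed this]
  simp

theorem pos_last (i j : ℕ) : pos M i j ((M.length + 1) * (M.length + 2) + (M.length + 1)) =
    (1, i, j, M.length + 1, M.length + 1) := by
  have e1 : ((M.length + 1) * (M.length + 2) + (M.length + 1)) / (M.length + 2) =
      M.length + 1 := by
    rw [mul_comm, Nat.mul_add_div (by omega), Nat.div_eq_of_lt (by omega), add_zero]
  have e2 : ((M.length + 1) * (M.length + 2) + (M.length + 1)) % (M.length + 2) =
      M.length + 1 := by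
    rw [mul_comm, Nat.mul_add_mod, Nat.mod_eq_of_lt (by omega)]
  have : allowed M i j (((M.length + 1) * (M.length + 2) + (M.length + 1)) / (M.length + 2))
      (((M.length + 1) * (M.length + 2) + (M.length + 1)) % (M.length + 2)) = false := by
    rw [← Bool.not_eq_true, allowed_iff, e1, e2]
    omega
  rw [pos_of_not_allowed this, e1, e2]

theorem pos_start (i j a : ℕ) : pos M i j (a * (M.length + 2)) = (1, i, j, a, 0) := by
  have e1 : (a * (M.length + 2)) / (M.length + 2) = a := Nat.mul_div_cancel _ (by omega)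
  have e2 : (a * (M.length + 2)) % (M.length + 2) = 0 := Nat.mul_mod_left _ _
  have : allowed M i j ((a * (M.length + 2)) / (M.length + 2))
      ((a * (M.length + 2)) % (M.length + 2)) = false := by
    rw [← Bool.not_eq_true, allowed_iff, e1, e2]
    omega
  rw [pos_of_not_allowed this, e1, e2]

theorem BStep.symm {S : Set Nm} {p q : Nm} (h : BStep M k S p q) : BStep M k S q p :=
  ⟨⟨h.1.2, h.1.1⟩, ⟨h.2.1.1.symm, by rw [blueS_comm]; exact h.2.1.2⟩, h.2.2.2, h.2.2.1⟩

theorem s_mem : ((3, 0, 0, 0, 0) : Nm) ∈ vtn M k := mem_vtn.2 (Or.inl rfl)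

theorem t_mem : ((4, 0, 0, 0, 0) : Nm) ∈ vtn M k := mem_vtn.2 (Or.inr (Or.inl rfl))

theorem bstep_next {S : Set Nm} {i j x : ℕ} (hi : i < k) (hj : j < k)
    (hx : x + 1 < (M.length + 2) * (M.length + 2)) (h1 : pos M i j x ∉ S)
    (h2 : pos M i j (x + 1) ∉ S) : BStep M k S (pos M i j x) (pos M i j (x + 1)) := by
  refine ⟨⟨pos_mem hi hj (by omega), pos_mem hi hj hx⟩, ⟨fun h => ?_, ?_⟩, h1, h2⟩
  · have := pos_inj h
    omega
  · rw [blueS, Bool.or_eq_true, blueD_iff]
    refine Or.inl (Or.inr (Or.inr (Or.inl ⟨⟨pos_kind _ _ _, pos_kind _ _ _⟩, ⟨rfl, rfl⟩, ?_⟩)))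
    rw [pos_idx, pos_idx]

theorem reach_left {S : Set Nm} (hs : ((3, 0, 0, 0, 0) : Nm) ∉ S) {i j : ℕ} (hi : i < k)
    (hj : j < k) : ∀ x, x < (M.length + 2) * (M.length + 2) → (∀ y ≤ x, pos M i j y ∉ S) →
    Relation.ReflTransGen (BStep M k S) (3, 0, 0, 0, 0) (pos M i j x) := by
  intro x
  induction x with
  | zero =>
    intro hx h
    refine Relation.ReflTransGen.single ?_
    have h0 := h 0 le_rfl
    have hm := pos_mem (M := M) hi hj hx
    rw [pos_zero] at h0 hm ⊢
    refine ⟨⟨s_mem, hm⟩, ⟨by simp, ?_⟩, hs, h0⟩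
    rw [blueS, Bool.or_eq_true, blueD_iff]
    exact Or.inl (Or.inl ⟨rfl, rfl, rfl⟩)
  | succ x ih =>
    intro hx h
    exact (ih (by omega) fun y hy => h y (by omega)).tail
      (bstep_next hi hj hx (h x (by omega)) (h (x + 1) le_rfl))

theorem reach_right {S : Set Nm} (ht : ((4, 0, 0, 0, 0) : Nm) ∉ S) {i j : ℕ} (hi : i < k)
    (hj : j < k) : ∀ d x, x + d + 1 = (M.length + 2) * (M.length + 2) →
    (∀ y, x ≤ y → y < (M.length + 2) * (M.length + 2) → pos M i j y ∉ S) →
    Relation.ReflTransGen (BStep M k S) (pos M i j x) (4, 0, 0, 0, 0) := by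
  intro d
  induction d with
  | zero =>
    intro x hx h
    refine Relation.ReflTransGen.single (BStep.symm ?_)
    have hx' : x = (M.length + 1) * (M.length + 2) + (M.length + 1) := by
      have : (M.length + 2) * (M.length + 2) =
        (M.length + 1) * (M.length + 2) + (M.length + 2) := by ring
      omega
    have h0 := h x le_rfl (by omega)
    have hm := pos_mem (M := M) (x := x) hi hj (by omega)
    rw [hx', pos_last] at h0 hm ⊢
    refine ⟨⟨t_mem, hm⟩, ⟨by simp, ?_⟩, ht, h0⟩
    rw [blueS, Bool.or_eq_true, blueD_iff]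
    exact Or.inl (Or.inr (Or.inl ⟨rfl, rfl, rfl⟩))
  | succ d ih =>
    intro x hx h
    exact Relation.ReflTransGen.head
      (bstep_next hi hj (by omega) (h x le_rfl (by omega)) (h (x + 1) (by omega) (by omega)))
      (ih (x + 1) (by omega) fun y hy hy' => h y (by omega) hy')

/-- Every cell is hit. -/
theorem cell_hit {S : Set Nm} (h : BSep M k S) {i j : ℕ} (hi : i < k) (hj : j < k) :
    ∃ x < (M.length + 2) * (M.length + 2), pos M i j x ∈ S := by
  by_contra hc
  push Not at hc
  have hpos : 0 < (M.length + 2) * (M.length + 2) := Nat.mul_pos (by omega) (by omega)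
  refine h.2.2 ((reach_left h.1 hi hj 0 hpos fun y hy => hc y (by omega)).trans
    (reach_right h.2.1 hi hj ((M.length + 2) * (M.length + 2) - 1) 0 (by omega)
      fun y _ hy => hc y hy))

/-- Cells in the same row are hit in the same group. -/
theorem same_group {S : Set Nm} (h : BSep M k S) {i j j' : ℕ} (hi : i < k) (hj : j < k)
    (hj' : j' < k) {x x' : ℕ} (hx' : x' < (M.length + 2) * (M.length + 2))
    (hu : ∀ y < (M.length + 2) * (M.length + 2), pos M i j y ∈ S → y = x)
    (hu' : ∀ y < (M.length + 2) * (M.length + 2), pos M i j' y ∈ S → y = x')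
    (hb : 1 ≤ x' % (M.length + 2)) : ¬ x / (M.length + 2) < x' / (M.length + 2) := by
  intro hlt
  have e1 := Nat.div_add_mod' x' (M.length + 2)
  have hy1 : x' / (M.length + 2) * (M.length + 2) < x' := by omega
  have hy2 : x < x' / (M.length + 2) * (M.length + 2) := by
    have e2 := Nat.div_add_mod' x (M.length + 2)
    have e3 := Nat.mod_lt x (show 0 < M.length + 2 by omega)
    have e4 := Nat.mul_le_mul_right (M.length + 2) (Nat.succ_le_of_lt hlt)
    rw [Nat.succ_mul] at e4
    omega
  generalize hy : x' / (M.length + 2) * (M.length + 2) = y at hy1 hy2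
  have r1 := reach_left (M := M) h.1 hi hj' y (by omega) (fun z hz hzS => by
    have := hu' z (by omega) hzS
    omega)
  have r2 := reach_right (M := M) h.2.1 hi hj ((M.length + 2) * (M.length + 2) - y - 1) y
    (by omega)
    (fun z hz hz' hzS => by
      have := hu z hz' hzS
      omega)
  refine h.2.2 (r1.trans ?_)
  by_cases hjj : j = j'
  · rw [← hjj]; exact r2
  · refine Relation.ReflTransGen.head ?_ r2
    have m1 := pos_mem (M := M) (x := y) hi hj (by omega)
    have m2 := pos_mem (M := M) (x := y) hi hj' (by omega)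
    have n1 : pos M i j y ∉ S := fun hS => by
      have := hu y (by omega) hS
      omega
    have n2 : pos M i j' y ∉ S := fun hS => by
      have := hu' y (by omega) hS
      omega
    rw [← hy, pos_start] at m1 m2 n1 n2 ⊢
    rw [pos_start]
    refine ⟨⟨m2, m1⟩, ⟨fun he => hjj ?_, ?_⟩, n2, n1⟩
    · simp only [Prod.mk.injEq] at he
      exact he.2.2.1.symm
    · rw [blueS, Bool.or_eq_true, blueD_iff]
      exact Or.inl (Or.inr (Or.inr (Or.inr ⟨⟨rfl, rfl⟩, ⟨rfl, rfl⟩, rfl, rfl⟩)))

/-- A small dual separator yields a clique. -/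
theorem clique_of_sep {S : Finset Nm} (hS : S.card ≤ k * k) (hb : BSep M k (S : Set Nm))
    (hr : BSep M k (mir ⁻¹' (S : Set Nm))) :
    ∃ v : Fin k → ℕ, (∀ i, v i < M.length) ∧ ∀ i j, i ≠ j → edg M (v i) (v j) = true := by
  classical
  -- one element in each cell
  have himg : (Finset.range k ×ˢ Finset.range k) ⊆ S.image (fun p => (p.2.1, p.2.2.1)) := by
    rintro ⟨i, j⟩ hij
    rw [Finset.mem_product, Finset.mem_range, Finset.mem_range] at hij
    obtain ⟨x, _, hx⟩ := cell_hit hb hij.1 hij.2
    rw [Finset.mem_image]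
    exact ⟨_, hx, rfl⟩
  have hcard : (S.image (fun p : Nm => (p.2.1, p.2.2.1))).card = S.card := by
    refine le_antisymm Finset.card_image_le ?_
    have h1 := Finset.card_le_card himg
    rw [Finset.card_product, Finset.card_range] at h1
    omega
  have hinj : Set.InjOn (fun p : Nm => (p.2.1, p.2.2.1)) (S : Set Nm) :=
    Finset.card_image_iff.1 hcard
  have key : ∀ i j : Fin k, ∃ x < (M.length + 2) * (M.length + 2), pos M i j x ∈ S ∧
      allowed M i j (x / (M.length + 2)) (x % (M.length + 2)) = true := by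
    intro i j
    obtain ⟨x, hx, hxS⟩ := cell_hit hb i.2 j.2
    refine ⟨x, hx, hxS, ?_⟩
    obtain ⟨y, hy, hyS⟩ := cell_hit hr j.2 i.2
    have h1 : pos M i j x = mir (pos M j i y) := hinj hxS hyS rfl
    have h2 : (pos M i j x).1 ≠ 1 := by
      rw [h1]
      intro h
      have := (mir_kind (pos M j i y)).2.1.1 h
      have := pos_kind (M := M) j i y
      omega
    by_contra h3
    rw [Bool.not_eq_true] at h3
    rw [pos_of_not_allowed h3] at h2
    exact h2 rfl
  choose X hX1 hX2 hX3 using key
  have hu : ∀ i j : Fin k, ∀ y < (M.length + 2) * (M.length + 2),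
      pos M i j y ∈ (S : Set Nm) → y = X i j := by
    intro i j y _ hy
    exact pos_inj (hinj hy (hX2 i j) rfl)
  -- the mirrored positions
  have hbl : ∀ i j : Fin k, X i j / (M.length + 2) < M.length + 2 := fun i j =>
    Nat.div_lt_of_lt_mul (hX1 i j)
  have hml : ∀ i j : Fin k, X i j % (M.length + 2) < M.length + 2 := fun i j =>
    Nat.mod_lt _ (by omega)
  have hYlt : ∀ i j : Fin k, X j i % (M.length + 2) * (M.length + 2) + X j i / (M.length + 2) <
      (M.length + 2) * (M.length + 2) := by
    intro i j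
    have h1 := Nat.mul_le_mul_right (M.length + 2) (Nat.succ_le_of_lt (hml j i))
    rw [Nat.succ_mul] at h1
    have := hbl j i
    omega
  have hYd : ∀ i j : Fin k, (X j i % (M.length + 2) * (M.length + 2) +
      X j i / (M.length + 2)) / (M.length + 2) = X j i % (M.length + 2) := by
    intro i j
    rw [mul_comm, Nat.mul_add_div (by omega), Nat.div_eq_of_lt (hbl j i), add_zero]
  have hYm : ∀ i j : Fin k, (X j i % (M.length + 2) * (M.length + 2) +
      X j i / (M.length + 2)) % (M.length + 2) = X j i / (M.length + 2) := by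
    intro i j
    rw [mul_comm, Nat.mul_add_mod, Nat.mod_eq_of_lt (hbl j i)]
  have hu' : ∀ i j : Fin k, ∀ y < (M.length + 2) * (M.length + 2),
      pos M i j y ∈ mir ⁻¹' (S : Set Nm) →
        y = X j i % (M.length + 2) * (M.length + 2) + X j i / (M.length + 2) := by
    intro i j y _ hy
    have h1 : mir (pos M i j y) = pos M j i (X j i) := hinj hy (hX2 j i) rfl
    have h2 : (mir (pos M i j y)).2.2.2.1 = (pos M j i (X j i)).2.2.2.1 := by rw [h1]
    have h3 : (mir (pos M i j y)).2.2.2.2 = (pos M j i (X j i)).2.2.2.2 := by rw [h1]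
    have h2' : y % (M.length + 2) = X j i / (M.length + 2) := h2
    have h3' : y / (M.length + 2) = X j i % (M.length + 2) := h3
    rw [← h2', ← h3']
    exact (Nat.div_add_mod' y (M.length + 2)).symm
  have hal := fun i j : Fin k => allowed_iff.1 (hX3 i j)
  -- equal groups
  have hrow : ∀ i j j' : Fin k, X i j / (M.length + 2) = X i j' / (M.length + 2) := by
    intro i j j'
    refine le_antisymm ?_ ?_
    · exact not_lt.1 (same_group hb i.2 j'.2 j.2 (hX1 i j) (hu i j') (hu i j)
        (hal i j).1.2.2.1)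
    · exact not_lt.1 (same_group hb i.2 j.2 j'.2 (hX1 i j') (hu i j) (hu i j')
        (hal i j').1.2.2.1)
  have hcol : ∀ i j j' : Fin k, X j i % (M.length + 2) = X j' i % (M.length + 2) := by
    intro i j j'
    have h1 := same_group hr i.2 j'.2 j.2 (hYlt i j) (hu' i j') (hu' i j)
      (by rw [hYm]; exact (hal j i).1.1)
    have h2 := same_group hr i.2 j.2 j'.2 (hYlt i j') (hu' i j) (hu' i j')
      (by rw [hYm]; exact (hal j' i).1.1)
    rw [hYd, hYd] at h1 h2
    exact le_antisymm (not_lt.1 h1) (not_lt.1 h2)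
  refine ⟨fun i => X i i / (M.length + 2) - 1, fun i => ?_, fun i j hij => ?_⟩
  · have := (hal i i).1
    simp only
    omega
  · have h1 := (hal i j).2.2 (fun h => hij (Fin.ext h))
    rw [hrow i j i, hcol j i j, ← (hal j j).2.1 rfl] at h1
    exact h1

/-- A clique yields a separator. -/
theorem sep_of_clique {v : ℕ → ℕ} (hv : ∀ i < k, v i < M.length)
    (he : ∀ i < k, ∀ j < k, i ≠ j → edg M (v i) (v j) = true) :
    BSep M k {p | ∃ i < k, ∃ j < k, p = (0, i, j, v i + 1, v j + 1)} := by
  have key : ∀ p r : Nm, p ∈ vtn M k → r ∈ vtn M k →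
      (¬ ∃ i < k, ∃ j < k, p = (0, i, j, v i + 1, v j + 1)) →
      (¬ ∃ i < k, ∃ j < k, r = (0, i, j, v i + 1, v j + 1)) →
      blueD (M.length + 2) p r = true →
      ((p.1 = 3 ∨ (p.1 ≤ 1 ∧ p.2.2.2.1 * (M.length + 2) + p.2.2.2.2 <
        (v p.2.1 + 1) * (M.length + 2) + (v p.2.2.1 + 1))) ↔
      (r.1 = 3 ∨ (r.1 ≤ 1 ∧ r.2.2.2.1 * (M.length + 2) + r.2.2.2.2 <
        (v r.2.1 + 1) * (M.length + 2) + (v r.2.2.1 + 1)))) := by
    intro p r hp hr hpS hrS h
    -- a vertex of a cell which is not chosen is not at the cut position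
    have hne : ∀ p : Nm, p ∈ vtn M k → p.1 ≤ 1 →
        (¬ ∃ i < k, ∃ j < k, p = (0, i, j, v i + 1, v j + 1)) →
        p.2.2.2.1 * (M.length + 2) + p.2.2.2.2 ≠
          (v p.2.1 + 1) * (M.length + 2) + (v p.2.2.1 + 1) := by
      intro p hp hk hS heq
      rw [mem_vtn] at hp
      rcases hp with rfl | rfl | ⟨⟨h1, h2, h3, h4, h5⟩, h6⟩
      · simp at hk
      · simp at hk
      · have h7 := hv _ h2
        have h8 := hv _ h3
        have h9 : p.2.2.2.1 = v p.2.1 + 1 := by
          rcases lt_trichotomy p.2.2.2.1 (v p.2.1 + 1) with h | h | h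
          · have := Nat.mul_le_mul_right (M.length + 2) (Nat.succ_le_of_lt h)
            rw [Nat.succ_mul] at this
            omega
          · exact h
          · have := Nat.mul_le_mul_right (M.length + 2) (Nat.succ_le_of_lt h)
            rw [Nat.succ_mul (v p.2.1 + 1)] at this
            omega
        have h10 : p.2.2.2.2 = v p.2.2.1 + 1 := by
          rw [h9] at heq
          omega
        have hal : allowed M p.2.1 p.2.2.1 p.2.2.2.1 p.2.2.2.2 = true := by
          rw [allowed_iff, h9, h10]
          refine ⟨by omega, fun h => by rw [h], fun h => ?_⟩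
          simp only [Nat.add_sub_cancel]
          exact he _ h2 _ h3 h
        have h0 : p.1 = 0 := by
          by_contra h0
          unfold okN at h6
          rw [decide_eq_false h0, cond_false, hal] at h6
          exact absurd h6 (by decide)
        refine hS ⟨p.2.1, h2, p.2.2.1, h3, ?_⟩
        obtain ⟨c, i, j, a, b⟩ := p
        simp only at h0 h9 h10
        rw [h0, h9, h10]
    rw [blueD_iff] at h
    rcases h with ⟨h1, h2, h3⟩ | ⟨h1, h2, h3⟩ | ⟨⟨h1, h2⟩, ⟨h3, h4⟩, h5⟩ |
      ⟨⟨h1, h2⟩, ⟨h3, h4⟩, h5, h6⟩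
    · have e1 : r.2.2.2.1 = 0 := congrArg Prod.fst h3
      have e2 : r.2.2.2.2 = 0 := congrArg Prod.snd h3
      refine iff_of_true (Or.inl h1) (Or.inr ⟨by omega, ?_⟩)
      rw [e1, e2]
      omega
    · have e1 : r.2.2.2.1 = M.length + 1 := congrArg Prod.fst h3
      have e2 : r.2.2.2.2 = M.length + 1 := congrArg Prod.snd h3
      refine iff_of_false (by omega) ?_
      rintro (h | ⟨_, h⟩)
      · omega
      · rw [mem_vtn] at hr
        rcases hr with rfl | rfl | ⟨⟨_, g2, g3, _, _⟩, _⟩
        · simp at h2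
        · simp at h2
        · have g4 := hv _ g2
          have g5 := hv _ g3
          rw [e1, e2] at h
          have := Nat.mul_le_mul_right (M.length + 2) (show v r.2.1 + 1 ≤ M.length + 1 by omega)
          omega
    · have n1 := hne p hp h1 hpS
      have n2 := hne r hr h2 hrS
      rw [← h3, ← h4] at n2 ⊢
      rw [h5] at n2 ⊢
      constructor
      · rintro (h | ⟨_, h⟩)
        · omega
        · exact Or.inr ⟨h2, by omega⟩
      · rintro (h | ⟨_, h⟩)
        · omega
        · exact Or.inr ⟨h1, by omega⟩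
    · rw [← h3, ← h4, h5, h6]
      rw [mem_vtn] at hp hr
      have hp' : p.2.1 < k ∧ p.2.2.1 < k := by
        rcases hp with rfl | rfl | ⟨⟨_, g2, g3, _, _⟩, _⟩
        · simp at h1
        · simp at h1
        · exact ⟨g2, g3⟩
      have hr' : r.2.2.1 < k := by
        rcases hr with rfl | rfl | ⟨⟨_, g2, g3, _, _⟩, _⟩
        · simp at h2
        · simp at h2
        · exact g3
      have g1 := hv _ hp'.2
      have g2 := hv _ hr'
      have g3 : ∀ w, w < M.length → (p.2.2.2.1 * (M.length + 2) + 0 <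
          (v p.2.1 + 1) * (M.length + 2) + (w + 1) ↔ p.2.2.2.1 ≤ v p.2.1 + 1) := by
        intro w hw
        constructor
        · intro h
          by_contra hc
          have := Nat.mul_le_mul_right (M.length + 2)
            (show (v p.2.1 + 1) + 1 ≤ p.2.2.2.1 by omega)
          rw [Nat.succ_mul] at this
          omega
        · intro h
          have := Nat.mul_le_mul_right (M.length + 2) h
          omega
      rw [g3 _ g1, g3 _ g2]
      omega
  refine ⟨?_, ?_, fun h => ?_⟩
  · rintro ⟨i, _, j, _, h⟩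
    simp at h
  · rintro ⟨i, _, j, _, h⟩
    simp at h
  · have hside : ∀ p : Nm, Relation.ReflTransGen
        (BStep M k {p | ∃ i < k, ∃ j < k, p = (0, i, j, v i + 1, v j + 1)}) (3, 0, 0, 0, 0) p →
        (p.1 = 3 ∨ (p.1 ≤ 1 ∧ p.2.2.2.1 * (M.length + 2) + p.2.2.2.2 <
          (v p.2.1 + 1) * (M.length + 2) + (v p.2.2.1 + 1))) := by
      intro p hp
      induction hp with
      | refl => exact Or.inl rfl
      | @tail p r _ hpr ih =>
        obtain ⟨⟨h1, h2⟩, ⟨_, h3⟩, h4, h5⟩ := hpr
        rw [blueS, Bool.or_eq_true] at h3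
        rcases h3 with h3 | h3
        · exact (key p r h1 h2 h4 h5 h3).1 ih
        · exact (key r p h2 h1 h5 h4 h3).2 ih
    have := hside _ h
    simp at this

end

end Pool.Agent.NPC.X247.DS
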