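import Pool.Agent.H633R2.FptDefs

/-!
# Dual separators in edge-bicolored graphs
-/

namespace Pool.Agent.X247.DS

open Pool.Agent.NPC Pool.Agent.H633R2

/-- Entry `(i, j)` of a matrix of numbers given as a list of rows (missing entries are `0`). -/
def entN (M : List (List ℕ)) (i j : ℕ) : ℕ := (M.getD i []).getD j 0

/-- An edge-coloured graph with vertex set `Fin M.length` is given by a matrix `M` of numbers: the
colour of the pair `{i, j}`, `i < j`, is the entry `(i, j)`. `colGraph M c` is the graph of the
pairs of colour `c`; blue is colour `1`, red is colour `2`, all other numbers mean non-edges. -/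
def colGraph (M : List (List ℕ)) (c : ℕ) : SimpleGraph (Fin M.length) where
  Adj i j := i ≠ j ∧ entN M (min i j) (max i j) = c
  symm := ⟨fun i j h => ⟨h.1.symm, by rw [min_comm, max_comm]; exact h.2⟩⟩
  loopless := ⟨fun _ h => h.1 rfl⟩

/-- `s` and `t` are not in `S` and lie in different connected components of `G - S`. -/
def Separates {V : Type} (G : SimpleGraph V) (S : Set V) (s t : V) : Prop :=
  ∃ (hs : s ∈ Sᶜ) (ht : t ∈ Sᶜ), ¬ (G.induce Sᶜ).Reachable ⟨s, hs⟩ ⟨t, ht⟩

/-- Dual Separator for Two Terminals: instances `((M, s, t), k)`; `s` and `t` are different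
vertices of the edge-bicolored graph of `M`, and some set of at most `k` vertices separates them
both in the blue graph and in the red graph. -/
def DualSep2 (x : (List (List ℕ) × ℕ × ℕ) × ℕ) : Prop :=
  ∃ (hs : x.1.2.1 < x.1.1.length) (ht : x.1.2.2 < x.1.1.length), x.1.2.1 ≠ x.1.2.2 ∧
    ∃ S : Finset (Fin x.1.1.length), S.card ≤ x.2 ∧
      Separates (colGraph x.1.1 1) S ⟨_, hs⟩ ⟨_, ht⟩ ∧
      Separates (colGraph x.1.1 2) S ⟨_, hs⟩ ⟨_, ht⟩

end Pool.Agent.X247.DS
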