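import Pool.Agent.X247.DS.Names

/-!
# The grid construction: from cliques to dual separators
-/

namespace Pool.Agent.NPC.X247.DS

open Pool.Agent.H633R2 Pool.Agent.X247.DS

/-- names of vertices: kind, row, column, first label, second label; kind `0` is shared, `1` blue,
`2` red, `3` is `s`, `4` is `t` -/
abbrev Nm : Type := ℕ × ℕ × ℕ × ℕ × ℕ

/-- the pairs of labels that may be chosen in the cell `(i, j)`; the vertex `v` has label `v+1` -/
def allowed (M : List (List Bool)) (i j a b : ℕ) : Bool :=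
  decide (1 ≤ a) && (decide (a ≤ M.length) && (decide (1 ≤ b) && (decide (b ≤ M.length) &&
    (bif decide (i = j) then decide (a = b) else edg M (a - 1) (b - 1)))))

theorem allowed_iff {M : List (List Bool)} {i j a b : ℕ} : allowed M i j a b = true ↔
    (1 ≤ a ∧ a ≤ M.length ∧ 1 ≤ b ∧ b ≤ M.length) ∧ (i = j → a = b) ∧
      (i ≠ j → edg M (a - 1) (b - 1) = true) := by
  unfold allowed
  by_cases h : i = j
  · simp only [h, decide_true, cond_true, Bool.and_eq_true, decide_eq_true_eq, ne_eq,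
      not_true_eq_false, false_implies, and_true, forall_const, and_assoc]
  · simp only [h, decide_false, cond_false, Bool.and_eq_true, decide_eq_true_eq, ne_eq,
      not_false_eq_true, false_implies, true_and, forall_const, and_assoc]

theorem edg_comm (M : List (List Bool)) (i j : ℕ) : edg M i j = edg M j i := by
  unfold edg
  rw [Bool.or_comm]
  congr 2
  exact decide_eq_decide.2 eq_comm

theorem allowed_symm (M : List (List Bool)) (i j a b : ℕ) :
    allowed M j i b a = allowed M i j a b := by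
  rw [Bool.eq_iff_iff, allowed_iff, allowed_iff, edg_comm M (b - 1)]
  constructor
  · rintro ⟨⟨h1, h2, h3, h4⟩, h5, h6⟩
    exact ⟨⟨h3, h4, h1, h2⟩, fun h => (h5 h.symm).symm, fun h => h6 h.symm⟩
  · rintro ⟨⟨h1, h2, h3, h4⟩, h5, h6⟩
    exact ⟨⟨h3, h4, h1, h2⟩, fun h => (h5 h.symm).symm, fun h => h6 h.symm⟩

/-- legal names -/
def okN (M : List (List Bool)) (p : Nm) : Bool :=
  bif decide (p.1 = 0) then allowed M p.2.1 p.2.2.1 p.2.2.2.1 p.2.2.2.2
    else !(allowed M p.2.1 p.2.2.1 p.2.2.2.1 p.2.2.2.2)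

/-- the vertices -/
def vtn (M : List (List Bool)) (k : ℕ) : List Nm :=
  (3, 0, 0, 0, 0) :: (4, 0, 0, 0, 0) ::
    ((List.range 3) ×ˢ ((List.range k) ×ˢ ((List.range k) ×ˢ
      ((List.range (M.length + 2)) ×ˢ (List.range (M.length + 2)))))).filter (okN M)

theorem mem_vtn {M : List (List Bool)} {k : ℕ} {p : Nm} : p ∈ vtn M k ↔
    p = (3, 0, 0, 0, 0) ∨ p = (4, 0, 0, 0, 0) ∨
      ((p.1 < 3 ∧ p.2.1 < k ∧ p.2.2.1 < k ∧ p.2.2.2.1 < M.length + 2 ∧
        p.2.2.2.2 < M.length + 2) ∧ okN M p = true) := by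
  obtain ⟨c, i, j, a, b⟩ := p
  simp only [vtn, List.mem_cons, List.mem_filter, List.mem_product, List.mem_range]

theorem vtn_nodup (M : List (List Bool)) (k : ℕ) : (vtn M k).Nodup := by
  unfold vtn
  rw [List.nodup_cons, List.nodup_cons]
  refine ⟨?_, ?_, (List.nodup_range.product (List.nodup_range.product (List.nodup_range.product
    (List.nodup_range.product List.nodup_range)))).filter _⟩
  · intro h
    simp only [List.mem_cons, List.mem_filter, List.mem_product, List.mem_range,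
      Prod.mk.injEq] at h
    omega
  · intro h
    simp only [List.mem_filter, List.mem_product, List.mem_range] at h
    omega

/-- blue adjacency, to be symmetrised -/
def blueD (N : ℕ) (p q : Nm) : Bool :=
  (decide (p.1 = 3) && (decide (q.1 = 1) && decide (q.2.2.2 = (0, 0)))) ||
  ((decide (p.1 = 4) && (decide (q.1 = 1) && decide (q.2.2.2 = (N - 1, N - 1)))) ||
  (((decide (p.1 ≤ 1) && decide (q.1 ≤ 1)) && ((decide (p.2.1 = q.2.1) &&
    decide (p.2.2.1 = q.2.2.1)) &&
      decide (q.2.2.2.1 * N + q.2.2.2.2 = p.2.2.2.1 * N + p.2.2.2.2 + 1))) ||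
  ((decide (p.1 = 1) && decide (q.1 = 1)) && ((decide (p.2.1 = q.2.1) &&
    decide (p.2.2.2.1 = q.2.2.2.1)) &&
      (decide (p.2.2.2.2 = 0) && decide (q.2.2.2.2 = 0))))))

theorem blueD_iff {N : ℕ} {p q : Nm} : blueD N p q = true ↔
    (p.1 = 3 ∧ q.1 = 1 ∧ q.2.2.2 = (0, 0)) ∨ (p.1 = 4 ∧ q.1 = 1 ∧ q.2.2.2 = (N - 1, N - 1)) ∨
    ((p.1 ≤ 1 ∧ q.1 ≤ 1) ∧ (p.2.1 = q.2.1 ∧ p.2.2.1 = q.2.2.1) ∧
      q.2.2.2.1 * N + q.2.2.2.2 = p.2.2.2.1 * N + p.2.2.2.2 + 1) ∨
    ((p.1 = 1 ∧ q.1 = 1) ∧ (p.2.1 = q.2.1 ∧ p.2.2.2.1 = q.2.2.2.1) ∧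
      p.2.2.2.2 = 0 ∧ q.2.2.2.2 = 0) := by
  simp only [blueD, Bool.or_eq_true, Bool.and_eq_true, decide_eq_true_eq]

/-- blue adjacency -/
def blueS (N : ℕ) (p q : Nm) : Bool := blueD N p q || blueD N q p

/-- exchange of blue and red -/
def mir (p : Nm) : Nm :=
  (bif decide (p.1 = 1) then 2 else bif decide (p.1 = 2) then 1 else p.1,
    p.2.2.1, p.2.1, p.2.2.2.2, p.2.2.2.1)

theorem mir_kind (p : Nm) : ((mir p).1 = 0 ↔ p.1 = 0) ∧ ((mir p).1 = 1 ↔ p.1 = 2) ∧
    ((mir p).1 = 2 ↔ p.1 = 1) ∧ ((mir p).1 = 3 ↔ p.1 = 3) ∧ ((mir p).1 = 4 ↔ p.1 = 4) ∧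
      ((mir p).1 < 3 ↔ p.1 < 3) := by
  unfold mir
  by_cases h1 : p.1 = 1
  · simp [h1]
  · by_cases h2 : p.1 = 2
    · simp [h2]
    · simp [h1, h2]

theorem mir_mir (p : Nm) : mir (mir p) = p := by
  obtain ⟨c, i, j, a, b⟩ := p
  unfold mir
  by_cases h1 : c = 1
  · simp [h1]
  · by_cases h2 : c = 2
    · simp [h2]
    · simp [h1, h2]

/-- the colour of a pair of vertices -/
def colP (N : ℕ) (p q : Nm) : ℕ :=
  bif blueS N p q then 1 else bif blueS N (mir p) (mir q) then 2 else 0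

theorem blueS_comm (N : ℕ) (p q : Nm) : blueS N p q = blueS N q p := Bool.or_comm _ _

theorem colP_comm (N : ℕ) (p q : Nm) : colP N p q = colP N q p := by
  unfold colP
  rw [blueS_comm N p q, blueS_comm N (mir p)]

theorem colP_one {N : ℕ} {p q : Nm} : colP N p q = 1 ↔ blueS N p q = true := by
  unfold colP
  cases blueS N p q
  · cases blueS N (mir p) (mir q) <;> simp
  · simp

theorem mir_mem {M : List (List Bool)} {k : ℕ} {p : Nm} : mir p ∈ vtn M k ↔ p ∈ vtn M k := by
  have key : ∀ p, p ∈ vtn M k → mir p ∈ vtn M k := by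
    intro p hp
    rw [mem_vtn] at hp ⊢
    rcases hp with rfl | rfl | ⟨⟨h1, h2, h3, h4, h5⟩, h6⟩
    · exact Or.inl rfl
    · exact Or.inr (Or.inl rfl)
    · refine Or.inr (Or.inr ⟨⟨(mir_kind p).2.2.2.2.2.2 h1, h3, h2, h5, h4⟩, ?_⟩)
      have e : okN M (mir p) = okN M p := by
        unfold okN
        have e1 : decide ((mir p).1 = 0) = decide (p.1 = 0) := decide_eq_decide.2 (mir_kind p).1
        rw [e1]
        simp only [mir]
        rw [allowed_symm]
      rw [e]
      exact h6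
  exact ⟨fun h => by have := key _ h; rwa [mir_mir] at this, key p⟩

/-- No pair of vertices is joined in both colours. -/
theorem not_both {M : List (List Bool)} {k : ℕ} {p q : Nm} (hp : p ∈ vtn M k)
    (hq : q ∈ vtn M k) (hb : blueS (M.length + 2) p q = true)
    (hr : blueS (M.length + 2) (mir p) (mir q) = true) : False := by
  have hk1 := mir_kind p
  have hk2 := mir_kind q
  have key : ∀ p ∈ vtn M k, p.1 = 0 → (1 ≤ p.2.2.2.1 ∧ p.2.2.2.1 ≤ M.length) ∧
      1 ≤ p.2.2.2.2 ∧ p.2.2.2.2 ≤ M.length := by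
    intro p hp h0
    rw [mem_vtn] at hp
    rcases hp with rfl | rfl | ⟨_, h6⟩
    · simp at h0
    · simp at h0
    · unfold okN at h6
      rw [h0] at h6
      simp only [decide_true, cond_true, allowed_iff] at h6
      omega
  have kp := key p hp
  have kq := key q hq
  simp only [blueS, Bool.or_eq_true, blueD_iff] at hb hr
  have mk : ∀ x : Nm, (mir x).2.1 = x.2.2.1 ∧ (mir x).2.2.1 = x.2.1 ∧
      (mir x).2.2.2.1 = x.2.2.2.2 ∧ (mir x).2.2.2.2 = x.2.2.2.1 := fun x => ⟨rfl, rfl, rfl, rfl⟩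
  obtain ⟨m1, m2, m3, m4⟩ := mk p
  obtain ⟨n1, n2, n3, n4⟩ := mk q
  have h00 : p.1 = 0 ∧ q.1 = 0 := by
    rcases hb with (hb | hb | hb | hb) | (hb | hb | hb | hb) <;>
    rcases hr with (hr | hr | hr | hr) | (hr | hr | hr | hr) <;> omega
  have kp' := kp h00.1
  have kq' := kq h00.2
  have hb' : q.2.2.2.1 = p.2.2.2.1 ∧ (q.2.2.2.2 = p.2.2.2.2 + 1 ∨ p.2.2.2.2 = q.2.2.2.2 + 1) := by
    rcases hb with (hb | hb | hb | hb) | (hb | hb | hb | hb)
    · omega
    · omega
    · have h3 := hb.2.2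
      have h4 : q.2.2.2.1 = p.2.2.2.1 := by
        rcases lt_trichotomy q.2.2.2.1 p.2.2.2.1 with h | h | h
        · have := Nat.mul_le_mul_right (M.length + 2) (Nat.succ_le_of_lt h)
          rw [Nat.succ_mul] at this
          omega
        · exact h
        · have := Nat.mul_le_mul_right (M.length + 2) (Nat.succ_le_of_lt h)
          rw [Nat.succ_mul] at this
          omega
      rw [h4] at h3
      omega
    · omega
    · omega
    · omega
    · have h3 := hb.2.2
      have h4 : q.2.2.2.1 = p.2.2.2.1 := by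
        rcases lt_trichotomy q.2.2.2.1 p.2.2.2.1 with h | h | h
        · have := Nat.mul_le_mul_right (M.length + 2) (Nat.succ_le_of_lt h)
          rw [Nat.succ_mul] at this
          omega
        · exact h
        · have := Nat.mul_le_mul_right (M.length + 2) (Nat.succ_le_of_lt h)
          rw [Nat.succ_mul] at this
          omega
      rw [h4] at h3
      omega
    · omega
  have hr' : q.2.2.2.2 = p.2.2.2.2 := by
    rcases hr with (hr | hr | hr | hr) | (hr | hr | hr | hr)
    · omega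
    · omega
    · have h3 := hr.2.2
      rw [m3, m4, n3, n4] at h3
      rcases lt_trichotomy q.2.2.2.2 p.2.2.2.2 with h | h | h
      · have := Nat.mul_le_mul_right (M.length + 2) (Nat.succ_le_of_lt h)
        rw [Nat.succ_mul] at this
        omega
      · exact h
      · have := Nat.mul_le_mul_right (M.length + 2) (Nat.succ_le_of_lt h)
        rw [Nat.succ_mul] at this
        omega
    · omega
    · omega
    · omega
    · have h3 := hr.2.2
      rw [m3, m4, n3, n4] at h3
      rcases lt_trichotomy q.2.2.2.2 p.2.2.2.2 with h | h | h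
      · have := Nat.mul_le_mul_right (M.length + 2) (Nat.succ_le_of_lt h)
        rw [Nat.succ_mul] at this
        omega
      · exact h
      · have := Nat.mul_le_mul_right (M.length + 2) (Nat.succ_le_of_lt h)
        rw [Nat.succ_mul] at this
        omega
    · omega
  omega

theorem colP_two {M : List (List Bool)} {k : ℕ} {p q : Nm} (hp : p ∈ vtn M k)
    (hq : q ∈ vtn M k) : colP (M.length + 2) p q = 2 ↔
      blueS (M.length + 2) (mir p) (mir q) = true := by
  unfold colP
  constructor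
  · intro h
    cases hb : blueS (M.length + 2) p q
    · rw [hb, cond_false] at h
      cases hr : blueS (M.length + 2) (mir p) (mir q)
      · rw [hr] at h; simp at h
      · rfl
    · rw [hb] at h; simp at h
  · intro h
    have hb : blueS (M.length + 2) p q = false := by
      rw [← Bool.not_eq_true]
      exact fun hb => not_both hp hq hb h
    rw [hb, h]
    rfl

/-- a step in the blue graph without `S` -/
def BStep (M : List (List Bool)) (k : ℕ) (S : Set Nm) (p q : Nm) : Prop :=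
  (p ∈ vtn M k ∧ q ∈ vtn M k) ∧ (p ≠ q ∧ blueS (M.length + 2) p q = true) ∧ p ∉ S ∧ q ∉ S

theorem step_one {M : List (List Bool)} {k : ℕ} {S : Set Nm} {p q : Nm} :
    Step (vtn M k) (colP (M.length + 2)) 1 S p q ↔ BStep M k S p q := by
  unfold Step BStep
  rw [colP_one]

theorem step_two {M : List (List Bool)} {k : ℕ} {S : Set Nm} {p q : Nm} :
    Step (vtn M k) (colP (M.length + 2)) 2 S p q ↔ BStep M k (mir ⁻¹' S) (mir p) (mir q) := by
  unfold Step BStep
  rw [mir_mem, mir_mem]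
  simp only [Set.mem_preimage, mir_mir]
  have hinj : mir p ≠ mir q ↔ p ≠ q := by
    constructor
    · rintro h rfl; exact h rfl
    · intro h h2; exact h (by rw [← mir_mir p, h2, mir_mir])
  rw [hinj]
  constructor
  · rintro ⟨⟨h1, h2⟩, ⟨h3, h4⟩, h5⟩
    exact ⟨⟨h1, h2⟩, ⟨h3, (colP_two h1 h2).1 h4⟩, h5⟩
  · rintro ⟨⟨h1, h2⟩, ⟨h3, h4⟩, h5⟩
    exact ⟨⟨h1, h2⟩, ⟨h3, (colP_two h1 h2).2 h4⟩, h5⟩

/-- `s` and `t` are separated by `S` in the blue graph -/
def BSep (M : List (List Bool)) (k : ℕ) (S : Set Nm) : Prop :=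
  (3, 0, 0, 0, 0) ∉ S ∧ (4, 0, 0, 0, 0) ∉ S ∧
    ¬ Relation.ReflTransGen (BStep M k S) (3, 0, 0, 0, 0) (4, 0, 0, 0, 0)

end Pool.Agent.NPC.X247.DS
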