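import Pool.Agent.X247.Gr
import Pool.Agent.X247.DS.Defs

/-!
# Edge-coloured graphs with named vertices
-/

namespace Pool.Agent.NPC.X247.DS

open Pool.Agent.H633R2 Pool.Agent.X247.DS

variable {τ : Type}

/-- the colour matrix of the graph with vertices `l` and colours `col` -/
def matN (l : List τ) (col : τ → τ → ℕ) : List (List ℕ) := l.map fun p => l.map fun q => col p q

theorem matN_length (l : List τ) (col : τ → τ → ℕ) : (matN l col).length = l.length := by
  simp [matN]

/-- the vertex with a given number -/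
def vn (l : List τ) (col : τ → τ → ℕ) (i : Fin (matN l col).length) : τ :=
  l.get (Fin.cast (matN_length l col) i)

theorem vn_mem (l : List τ) (col : τ → τ → ℕ) (i : Fin (matN l col).length) :
    vn l col i ∈ l := List.get_mem _ _

theorem exists_vn {l : List τ} (col : τ → τ → ℕ) {p : τ} (h : p ∈ l) :
    ∃ i, vn l col i = p := by
  obtain ⟨i, hi⟩ := List.get_of_mem h
  exact ⟨Fin.cast (matN_length l col).symm i, hi⟩

theorem vn_injective {l : List τ} (hl : l.Nodup) (col : τ → τ → ℕ) :
    Function.Injective (vn l col) := by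
  intro i j h
  have := List.nodup_iff_injective_get.1 hl h
  exact Fin.ext (by simpa [Fin.ext_iff] using this)

theorem entN_matN (l : List τ) (col : τ → τ → ℕ) (i j : Fin (matN l col).length) :
    entN (matN l col) i j = col (vn l col i) (vn l col j) := by
  have hi : (i : ℕ) < l.length := lt_of_lt_of_eq i.2 (matN_length l col)
  have hj : (j : ℕ) < l.length := lt_of_lt_of_eq j.2 (matN_length l col)
  unfold entN
  rw [List.getD_eq_getElem _ _ i.2]
  have h1 : (matN l col)[(i : ℕ)] = l.map fun q => col (vn l col i) q := by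
    simp only [matN, List.getElem_map, vn, List.get_eq_getElem, Fin.val_cast]
  rw [h1, List.getD_eq_getElem _ _ (by simpa using hj)]
  simp only [List.getElem_map, vn, List.get_eq_getElem, Fin.val_cast]

theorem adj_matN {l : List τ} (hl : l.Nodup) (col : τ → τ → ℕ) (hcol : ∀ p q, col p q = col q p)
    (c : ℕ) (i j : Fin (matN l col).length) :
    (colGraph (matN l col) c).Adj i j ↔
      vn l col i ≠ vn l col j ∧ col (vn l col i) (vn l col j) = c := by
  have h1 : entN (matN l col) (min i j) (max i j) = col (vn l col i) (vn l col j) := by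
    rcases le_total i j with h | h
    · have e1 : min (i : ℕ) j = i := min_eq_left h
      have e2 : max (i : ℕ) j = j := max_eq_right h
      rw [e1, e2, entN_matN]
    · have e1 : min (i : ℕ) j = j := min_eq_right h
      have e2 : max (i : ℕ) j = i := max_eq_left h
      rw [e1, e2, entN_matN, hcol]
  rw [show (colGraph (matN l col) c).Adj i j ↔ i ≠ j ∧ entN (matN l col) (min i j) (max i j) = c
    from Iff.rfl, h1, (vn_injective hl col).ne_iff]

/-- one step in the graph of colour `c` without the vertices in `S` -/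
def Step (l : List τ) (col : τ → τ → ℕ) (c : ℕ) (S : Set τ) (p q : τ) : Prop :=
  (p ∈ l ∧ q ∈ l) ∧ (p ≠ q ∧ col p q = c) ∧ p ∉ S ∧ q ∉ S

theorem separates_iff {V : Type} (G : SimpleGraph V) (S : Set V) (s t : V) :
    Separates G S s t ↔ s ∉ S ∧ t ∉ S ∧
      ¬ Relation.ReflTransGen (fun a b => G.Adj a b ∧ a ∉ S ∧ b ∉ S) s t := by
  constructor
  · rintro ⟨hs, ht, h⟩
    refine ⟨hs, ht, fun h2 => h ?_⟩
    have key : ∀ v, Relation.ReflTransGen (fun a b => G.Adj a b ∧ a ∉ S ∧ b ∉ S) s v →
        ∀ hv : v ∈ Sᶜ, (G.induce Sᶜ).Reachable ⟨s, hs⟩ ⟨v, hv⟩ := by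
      intro v hv
      induction hv with
      | refl => intro _; exact SimpleGraph.Reachable.refl _
      | @tail b c _ hbc ih =>
        intro hc
        refine (ih hbc.2.1).trans (SimpleGraph.Adj.reachable ?_)
        exact hbc.1
    exact key t h2 ht
  · rintro ⟨hs, ht, h⟩
    refine ⟨hs, ht, fun h2 => h ?_⟩
    rw [SimpleGraph.reachable_iff_reflTransGen] at h2
    exact h2.lift Subtype.val fun a b hab => ⟨hab, a.2, b.2⟩

/-- Separation in the graph of the matrix, in terms of the names of the vertices. -/
theorem separates_matN {l : List τ} (hl : l.Nodup) (col : τ → τ → ℕ)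
    (hcol : ∀ p q, col p q = col q p) (c : ℕ) (S : Set (Fin (matN l col).length))
    (s t : Fin (matN l col).length) :
    Separates (colGraph (matN l col) c) S s t ↔
      vn l col s ∉ vn l col '' S ∧ vn l col t ∉ vn l col '' S ∧
      ¬ Relation.ReflTransGen (Step l col c (vn l col '' S)) (vn l col s) (vn l col t) := by
  have hmem : ∀ i, vn l col i ∈ vn l col '' S ↔ i ∈ S := fun i =>
    (vn_injective hl col).mem_set_image
  rw [separates_iff, hmem, hmem]
  refine and_congr Iff.rfl (and_congr Iff.rfl (not_congr ⟨?_, ?_⟩))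
  · intro h
    refine h.lift (vn l col) fun a b hab => ?_
    refine ⟨⟨vn_mem _ _ _, vn_mem _ _ _⟩, (adj_matN hl col hcol c a b).1 hab.1, ?_, ?_⟩
    · rw [hmem]; exact hab.2.1
    · rw [hmem]; exact hab.2.2
  · intro h
    have key : ∀ p, Relation.ReflTransGen (Step l col c (vn l col '' S)) (vn l col s) p →
        ∃ i, vn l col i = p ∧ Relation.ReflTransGen
          (fun a b => (colGraph (matN l col) c).Adj a b ∧ a ∉ S ∧ b ∉ S) s i := by
      intro p hp
      induction hp with
      | refl => exact ⟨s, rfl, Relation.ReflTransGen.refl⟩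
      | @tail b q _ hbq ih =>
        obtain ⟨i, rfl, hi⟩ := ih
        obtain ⟨j, rfl⟩ := exists_vn col hbq.1.2
        refine ⟨j, rfl, hi.tail ⟨(adj_matN hl col hcol c i j).2 hbq.2.1, ?_, ?_⟩⟩
        · rw [← hmem]; exact hbq.2.2.1
        · rw [← hmem]; exact hbq.2.2.2
    obtain ⟨i, hi, h2⟩ := key _ h
    rwa [vn_injective hl col hi] at h2

theorem poly_matN {α : Type} [TEnc α] [TEnc τ] {l : α → List τ} {col : α → τ → τ → ℕ}
    (hl : Poly l) (hcol : Poly (fun q : (α × τ) × τ => col q.1.1 q.1.2 q.2)) :
    Poly (fun a => matN (l a) (col a)) := by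
  refine Poly.map (F := fun a p => (l a).map fun q => col a p q) hl ?_
  exact Poly.map (F := fun (x : α × τ) q => col x.1 x.2 q) (hl.comp (Poly.fst Poly.id)) hcol

end Pool.Agent.NPC.X247.DS
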