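import Pool.Agent.X247.DS.Core

/-!
# Dual Separator for Two Terminals is W[1]-hard
-/

namespace Pool.Agent.NPC.X247.DS

open Pool.Agent.H633R2 Pool.Agent.X247.DS

/-- the reduction from Clique -/
def red (x : List (List Bool) × ℕ) : (List (List ℕ) × ℕ × ℕ) × ℕ :=
  bif decide (x.2 ≤ x.1.length) then
    ((matN (vtn x.1 (min x.2 x.1.length)) (colP (x.1.length + 2)), 0, 1), x.2 * x.2)
  else (([], 0, 1), 0)

theorem vn_zero {M : List (List Bool)} {k : ℕ}
    (h : 0 < (matN (vtn M k) (colP (M.length + 2))).length) :
    vn (vtn M k) (colP (M.length + 2)) ⟨0, h⟩ = (3, 0, 0, 0, 0) := rfl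

theorem vn_one {M : List (List Bool)} {k : ℕ}
    (h : 1 < (matN (vtn M k) (colP (M.length + 2))).length) :
    vn (vtn M k) (colP (M.length + 2)) ⟨1, h⟩ = (4, 0, 0, 0, 0) := rfl

/-- separation in the two colours, in terms of the names -/
theorem sep_one {M : List (List Bool)} {k : ℕ}
    (h0 : 0 < (matN (vtn M k) (colP (M.length + 2))).length)
    (h1 : 1 < (matN (vtn M k) (colP (M.length + 2))).length)
    (S : Set (Fin (matN (vtn M k) (colP (M.length + 2))).length)) :
    Separates (colGraph (matN (vtn M k) (colP (M.length + 2))) 1) S ⟨0, h0⟩ ⟨1, h1⟩ ↔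
      BSep M k (vn (vtn M k) (colP (M.length + 2)) '' S) := by
  rw [separates_matN (vtn_nodup M k) _ (colP_comm _), vn_zero, vn_one]
  unfold BSep
  refine and_congr Iff.rfl (and_congr Iff.rfl (not_congr ?_))
  exact ⟨fun h => h.lift _root_.id fun _ _ => step_one.1,
    fun h => h.lift _root_.id fun _ _ => step_one.2⟩

theorem sep_two {M : List (List Bool)} {k : ℕ}
    (h0 : 0 < (matN (vtn M k) (colP (M.length + 2))).length)
    (h1 : 1 < (matN (vtn M k) (colP (M.length + 2))).length)
    (S : Set (Fin (matN (vtn M k) (colP (M.length + 2))).length)) :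
    Separates (colGraph (matN (vtn M k) (colP (M.length + 2))) 2) S ⟨0, h0⟩ ⟨1, h1⟩ ↔
      BSep M k (mir ⁻¹' (vn (vtn M k) (colP (M.length + 2)) '' S)) := by
  rw [separates_matN (vtn_nodup M k) _ (colP_comm _), vn_zero, vn_one]
  unfold BSep
  refine and_congr Iff.rfl (and_congr Iff.rfl (not_congr ⟨fun h => ?_, fun h => ?_⟩))
  · exact h.lift mir fun _ _ => step_two.1
  · refine h.lift mir fun a b hab => ?_
    refine step_two.2 ?_
    rw [mir_mir, mir_mir]
    exact hab

theorem red_iff (x : List (List Bool) × ℕ) : HasClique x ↔ DualSep2 (red x) := by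
  classical
  obtain ⟨M, k⟩ := x
  by_cases hk : k ≤ M.length
  · have hmin : min k M.length = k := min_eq_left hk
    unfold red
    simp only [hk, decide_true, cond_true, hmin]
    have hlen : 1 < (matN (vtn M k) (colP (M.length + 2))).length := by
      rw [matN_length]
      simp [vtn]
    have hlen0 : 0 < (matN (vtn M k) (colP (M.length + 2))).length := by omega
    constructor
    · rintro ⟨Q, hQ, hQk⟩
      simp only at Q hQ hQk
      -- enumerate the clique
      let e := Q.equivFinOfCardEq hQk
      let v : ℕ → ℕ := fun i => if h : i < k then ((e.symm ⟨i, h⟩ : Fin M.length) : ℕ) else 0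
      have hv : ∀ i < k, v i < M.length := by
        intro i hi
        simp only [v, dif_pos hi]
        exact Fin.is_lt _
      have he : ∀ i < k, ∀ j < k, i ≠ j → edg M (v i) (v j) = true := by
        intro i hi j hj hij
        simp only [v, dif_pos hi, dif_pos hj]
        rw [edg_iff]
        refine hQ (e.symm ⟨i, hi⟩).2 (e.symm ⟨j, hj⟩).2 fun h => hij ?_
        have h2 := e.symm.injective (Subtype.ext h)
        simpa using h2
      have hsep := sep_of_clique hv he
      -- the separator
      let T : Set Nm := {p | ∃ i < k, ∃ j < k, p = (0, i, j, v i + 1, v j + 1)}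
      have hTfin : ∀ p, p ∈ T → p ∈ vtn M k := by
        rintro _ ⟨i, hi, j, hj, rfl⟩
        rw [mem_vtn]
        have h1 := hv i hi
        have h2 := hv j hj
        refine Or.inr (Or.inr ⟨⟨by norm_num, hi, hj, by simp only; omega, by simp only; omega⟩, ?_⟩)
        unfold okN
        simp only [decide_true, cond_true]
        rw [allowed_iff]
        refine ⟨by omega, fun h => by rw [h], fun h => ?_⟩
        simp only [Nat.add_sub_cancel]
        exact he i hi j hj h
      let S : Finset (Fin (matN (vtn M k) (colP (M.length + 2))).length) :=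
        Finset.univ.filter (fun i => vn (vtn M k) (colP (M.length + 2)) i ∈ T)
      have himg : vn (vtn M k) (colP (M.length + 2)) '' (S : Set _) = T := by
        ext p
        constructor
        · rintro ⟨i, hi, rfl⟩
          exact (Finset.mem_filter.1 hi).2
        · intro hp
          obtain ⟨i, rfl⟩ := exists_vn (colP (M.length + 2)) (hTfin p hp)
          exact ⟨i, Finset.mem_coe.2 (Finset.mem_filter.2 ⟨Finset.mem_univ _, hp⟩), rfl⟩
      have hmir : mir ⁻¹' T = T := by
        have key : ∀ p, p ∈ T → mir p ∈ T := by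
          rintro _ ⟨i, hi, j, hj, rfl⟩
          exact ⟨j, hj, i, hi, rfl⟩
        ext p
        exact ⟨fun h => by have := key _ h; rwa [mir_mir] at this, key p⟩
      refine ⟨hlen0, hlen, by norm_num, S, ?_, ?_, ?_⟩
      · have h1 : S.card ≤ (Finset.range k ×ˢ Finset.range k).card := by
          refine Finset.card_le_card_of_injOn (fun i =>
            ((vn (vtn M k) (colP (M.length + 2)) i).2.1,
              (vn (vtn M k) (colP (M.length + 2)) i).2.2.1)) ?_ ?_
          · intro i hi
            obtain ⟨a, ha, b, hb, h⟩ := (Finset.mem_filter.1 hi).2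
            simp only [h, Finset.coe_product, Finset.coe_range, Set.mem_prod, Set.mem_Iio]
            exact ⟨ha, hb⟩
          · intro i hi j hj hij
            obtain ⟨a, ha, b, hb, h⟩ := (Finset.mem_filter.1 hi).2
            obtain ⟨c, hc, d, hd, h'⟩ := (Finset.mem_filter.1 hj).2
            simp only [h, h', Prod.mk.injEq] at hij
            refine vn_injective (vtn_nodup M k) _ ?_
            rw [h, h', hij.1, hij.2]
        rwa [Finset.card_product, Finset.card_range] at h1
      · rw [sep_one hlen0 hlen, himg]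
        exact hsep
      · rw [sep_two hlen0 hlen, himg, hmir]
        exact hsep
    · rintro ⟨_, _, _, S, hS, h1, h2⟩
      simp only at S hS h1 h2
      have h1' := (sep_one hlen0 hlen _).1 h1
      have h2' := (sep_two hlen0 hlen _).1 h2
      rw [← Finset.coe_image] at h1' h2'
      obtain ⟨v, hv, he⟩ := clique_of_sep (Finset.card_image_le.trans hS) h1' h2'
      have hinj : Function.Injective (fun i : Fin k => (⟨v i, hv i⟩ : Fin M.length)) := by
        intro i j hij
        by_contra hne
        have h3 := he i j hne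
        have h4 : v i = v j := congrArg Fin.val hij
        rw [h4] at h3
        simp [edg] at h3
      refine ⟨Finset.univ.image (fun i : Fin k => (⟨v i, hv i⟩ : Fin M.length)), ?_, ?_⟩
      · intro a ha b hb hab
        simp only [Finset.coe_image, Finset.coe_univ, Set.image_univ, Set.mem_range] at ha hb
        obtain ⟨i, rfl⟩ := ha
        obtain ⟨j, rfl⟩ := hb
        have hij : i ≠ j := fun h => hab (by rw [h])
        exact (edg_iff _ _ _).1 (he i j hij)
      · rw [Finset.card_image_of_injective _ hinj, Finset.card_univ, Fintype.card_fin]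
  · unfold red
    simp only [hk, decide_false, cond_false]
    constructor
    · rintro ⟨Q, _, hQk⟩
      have := Finset.card_le_univ Q
      rw [Fintype.card_fin] at this
      simp only at this hQk
      omega
    · rintro ⟨h, _⟩
      exact absurd h (by simp)

/-! ### Running time -/

section

variable {α : Type} [TEnc α]

theorem poly_allowed {M : α → List (List Bool)} {i j a b : α → ℕ} (hM : Poly M) (hi : Poly i)
    (hj : Poly j) (ha : Poly a) (hb : Poly b) :
    Poly (fun x => allowed (M x) (i x) (j x) (a x) (b x)) :=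
  Poly.and (Poly.decide_le (Poly.const 1) ha) (Poly.and (Poly.decide_le ha (Poly.length hM))
    (Poly.and (Poly.decide_le (Poly.const 1) hb) (Poly.and (Poly.decide_le hb (Poly.length hM))
      (Poly.cond (Poly.decide_eq hi hj) (Poly.decide_eq ha hb)
        (poly_edg hM (Poly.sub ha (Poly.const 1)) (Poly.sub hb (Poly.const 1)))))))

theorem poly_okN {M : α → List (List Bool)} {p : α → Nm} (hM : Poly M) (hp : Poly p) :
    Poly (fun x => okN (M x) (p x)) := by
  have h := poly_allowed (M := M) (i := fun x => (p x).2.1) (j := fun x => (p x).2.2.1)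
    (a := fun x => (p x).2.2.2.1) (b := fun x => (p x).2.2.2.2) hM
    (Poly.fst (Poly.snd hp)) (Poly.fst (Poly.snd (Poly.snd hp)))
    (Poly.fst (Poly.snd (Poly.snd (Poly.snd hp)))) (Poly.snd (Poly.snd (Poly.snd (Poly.snd hp))))
  exact Poly.cond (Poly.decide_eq (Poly.fst hp) (Poly.const 0)) h (Poly.not h)

theorem poly_prod {β γ : Type} [TEnc β] [TEnc γ] {l : α → List β} {l' : α → List γ}
    (hl : Poly l) (hl' : Poly l') : Poly (fun x => (l x) ×ˢ (l' x)) := by
  refine Poly.flatMap (F := fun x a => (l' x).map (Prod.mk a)) hl ?_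
  refine Poly.map (F := fun (x : α × β) b => (x.2, b)) (hl'.comp (Poly.fst Poly.id)) ?_
  exact Poly.pair (Poly.snd (Poly.fst Poly.id)) (Poly.snd Poly.id)

theorem poly_vtn {M : α → List (List Bool)} {k : α → ℕ} (hM : Poly M) (hk : UPoly k) :
    Poly (fun x => vtn (M x) (k x)) := by
  have hN : Poly (fun x => List.range ((M x).length + 2)) :=
    UPoly.range (UPoly.add (UPoly.length hM) (UPoly.const 2))
  have h1 : Poly (fun x => (List.range 3) ×ˢ ((List.range (k x)) ×ˢ ((List.range (k x)) ×ˢ
      ((List.range ((M x).length + 2)) ×ˢ (List.range ((M x).length + 2)))))) :=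
    poly_prod (Poly.const _) (poly_prod hk.range (poly_prod hk.range (poly_prod hN hN)))
  have h2 : Poly (fun x : α × Nm => okN (M x.1) x.2) :=
    poly_okN (M := fun x : α × Nm => M x.1) (p := fun x => x.2) (hM.comp (Poly.fst Poly.id))
      (Poly.snd Poly.id)
  exact Poly.cons (Poly.const _) (Poly.cons (Poly.const _)
    (Poly.filter (p := fun x p => okN (M x) p) h1 h2))

theorem poly_blueD {N : α → ℕ} {p q : α → Nm} (hN : Poly N) (hp : Poly p) (hq : Poly q) :
    Poly (fun x => blueD (N x) (p x) (q x)) := by
  have hc := fun c : ℕ => Poly.decide_eq (Poly.fst hp) (Poly.const c)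
  have hd := fun c : ℕ => Poly.decide_eq (Poly.fst hq) (Poly.const c)
  have pl := fun {r : α → Nm} (hr : Poly r) => Poly.snd (Poly.snd (Poly.snd hr))
  have e1 := Poly.decide_eq (Poly.fst (Poly.snd hp)) (Poly.fst (Poly.snd hq))
  have hN1 := Poly.sub hN (Poly.const 1)
  exact Poly.or (Poly.and (hc 3) (Poly.and (hd 1) (Poly.decide_eq (pl hq) (Poly.const (0, 0)))))
    (Poly.or (Poly.and (hc 4) (Poly.and (hd 1) (Poly.decide_eq (pl hq) (Poly.pair hN1 hN1))))
    (Poly.or (Poly.and (Poly.and (Poly.decide_le (Poly.fst hp) (Poly.const 1))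
      (Poly.decide_le (Poly.fst hq) (Poly.const 1))) (Poly.and (Poly.and e1
        (Poly.decide_eq (Poly.fst (Poly.snd (Poly.snd hp))) (Poly.fst (Poly.snd (Poly.snd hq)))))
        (Poly.decide_eq (Poly.add (Poly.mul (Poly.fst (pl hq)) hN) (Poly.snd (pl hq)))
          (Poly.add (Poly.add (Poly.mul (Poly.fst (pl hp)) hN) (Poly.snd (pl hp)))
            (Poly.const 1)))))
    (Poly.and (Poly.and (hc 1) (hd 1)) (Poly.and (Poly.and e1
      (Poly.decide_eq (Poly.fst (pl hp)) (Poly.fst (pl hq))))
      (Poly.and (Poly.decide_eq (Poly.snd (pl hp)) (Poly.const 0))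
        (Poly.decide_eq (Poly.snd (pl hq)) (Poly.const 0)))))))

theorem poly_blueS {N : α → ℕ} {p q : α → Nm} (hN : Poly N) (hp : Poly p) (hq : Poly q) :
    Poly (fun x => blueS (N x) (p x) (q x)) :=
  Poly.or (poly_blueD hN hp hq) (poly_blueD hN hq hp)

theorem poly_mir {p : α → Nm} (hp : Poly p) : Poly (fun x => mir (p x)) := by
  have pl := Poly.snd (Poly.snd (Poly.snd hp))
  exact Poly.pair (Poly.cond (Poly.decide_eq (Poly.fst hp) (Poly.const 1)) (Poly.const 2)
    (Poly.cond (Poly.decide_eq (Poly.fst hp) (Poly.const 2)) (Poly.const 1) (Poly.fst hp)))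
    (Poly.pair (Poly.fst (Poly.snd (Poly.snd hp))) (Poly.pair (Poly.fst (Poly.snd hp))
      (Poly.pair (Poly.snd pl) (Poly.fst pl))))

theorem poly_colP {N : α → ℕ} {p q : α → Nm} (hN : Poly N) (hp : Poly p) (hq : Poly q) :
    Poly (fun x => colP (N x) (p x) (q x)) :=
  Poly.cond (poly_blueS hN hp hq) (Poly.const 1)
    (Poly.cond (poly_blueS hN (poly_mir hp) (poly_mir hq)) (Poly.const 2) (Poly.const 0))

end

theorem poly_red : Poly red := by
  have hM : Poly (fun x : List (List Bool) × ℕ => x.1) := Poly.fst Poly.id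
  have hk : Poly (fun x : List (List Bool) × ℕ => x.2) := Poly.snd Poly.id
  have hmin : UPoly (fun x : List (List Bool) × ℕ => min x.2 x.1.length) :=
    UPoly.of_le (Poly.min hk (Poly.length hM)) (UPoly.length hM) fun _ => Nat.min_le_right _ _
  have h1 : Poly (fun q : ((List (List Bool) × ℕ) × Nm) × Nm =>
      colP (q.1.1.1.length + 2) q.1.2 q.2) :=
    poly_colP (N := fun q : ((List (List Bool) × ℕ) × Nm) × Nm => q.1.1.1.length + 2)
      (p := fun q => q.1.2) (q := fun q => q.2)
      (Poly.add (Poly.length (Poly.fst (Poly.fst (Poly.fst Poly.id)))) (Poly.const 2))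
      (Poly.snd (Poly.fst Poly.id)) (Poly.snd Poly.id)
  have h2 : Poly (fun x : List (List Bool) × ℕ =>
      matN (vtn x.1 (min x.2 x.1.length)) (colP (x.1.length + 2))) :=
    poly_matN (l := fun x : List (List Bool) × ℕ => vtn x.1 (min x.2 x.1.length))
      (col := fun x => colP (x.1.length + 2)) (poly_vtn hM hmin) h1
  exact Poly.cond (Poly.decide_le hk (Poly.length hM))
    (Poly.pair (Poly.pair h2 (Poly.const (0, 1))) (Poly.mul hk hk)) (Poly.const _)

/-- Dual Separator for Two Terminals is W[1]-hard. -/
theorem w1Hard : W1Hard (fun x : (List (List ℕ) × ℕ × ℕ) × ℕ => x.2) DualSep2 := by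
  refine W1Hard.of_clique ⟨red, fun k => k * k, FptTime.of_poly poly_red,
    mul_computable Computable.id Computable.id, fun x => ⟨red_iff x, ?_⟩⟩
  unfold red
  by_cases h : x.2 ≤ x.1.length
  · simp only [h, decide_true, cond_true]
    exact le_rfl
  · simp only [h, decide_false, cond_false]
    exact Nat.zero_le _

end Pool.Agent.NPC.X247.DS
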